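import Pool.Agent.QUD.StmtsU

/-!
# Squad QUD, row UQ: uniqueness at the first level (assembly)
-/

set_option autoImplicit false

namespace Pool.Agent.QUD.H19

open MeasureTheory Filter Topology Real Set Pool.Agent.AEU Pool.Agent.AEU.H12 Pool.Agent.XQ
  Pool.Agent.XQ.U Pool.Agent.QUD

theorem itm_kil {l : List (ℝ × ℝ)} (h : Itm l) : ∀ p ∈ l, Kil p := by
  rcases h with rfl | ⟨a, b, rfl, h⟩ | ⟨a, b, c, rfl, h1, h2, _⟩
  · intro p hp
    exact absurd hp (List.not_mem_nil)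
  · intro p hp
    rw [List.mem_singleton] at hp
    rw [hp]
    exact h
  · intro p hp
    rw [List.mem_cons, List.mem_singleton] at hp
    rcases hp with rfl | rfl
    · exact h1
    · exact h2

theorem uq (h1 : SeuStmt) (h2 : UqaStmt) (h3 : UqbStmt) (h4 : UqmStmt) : UqStmt := by
  intro L l l' hL hl hl' hs
  obtain ⟨e1, e2, e3, e4⟩ := h1 L l l' hL (itm_kil hl) (itm_kil hl') hs
  rcases h2 l l' hl hl' e1 e2 with ⟨r1, r2⟩ | ⟨p, q, hp, hq, hpq⟩ |
    ⟨a, b, c, a', b', c', r1, r2, _, _, _, _, _, _, r3⟩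
  · exact h3 l l' hl hl' r1 r2 e3 e4
  · exact h4 l l' p q hl hl' hp hq hpq e3 e4
  · exact Or.inr (Or.inr ⟨a, b, c, a', b', c', r1, r2, r3⟩)

end Pool.Agent.QUD.H19
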